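import Pool.Agent.Helper44_Art.Api

set_option autoImplicit false

/-! ART squad, module GLUE. -/

namespace Art.H50

open Monoid

theorem fi_comap {A B : Type} [Group A] [Group B] (f : A →* B) (K : Subgroup B)
    (hK : K.FiniteIndex) : (K.comap f).FiniteIndex := by
  constructor
  rw [Subgroup.index_comap]
  exact fun h => hK.index_ne_zero (Subgroup.index_eq_zero_of_relIndex_eq_zero h)

/-- residual finiteness passes along injective homomorphisms -/
theorem rf_of_injective {A B : Type} [Group A] [Group B] (f : A →* B) (hf : Function.Injective f)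
    (h : RF B) : RF A := by
  unfold RF at h ⊢
  rw [Group.residuallyFinite_iff_exists_finiteIndex] at h ⊢
  intro g hg
  obtain ⟨K, hK, hgK⟩ := h (f g) (fun h0 => hg (hf (by rw [h0, map_one])))
  exact ⟨K.comap f, fi_comap f K hK, hgK⟩

theorem vr_injective {C G : Type} [Group C] [Group G] (ι : C →* G) (h : VR ι) :
    Function.Injective ι := by
  obtain ⟨H, hι, ρ, _, hρ⟩ := h
  intro c c' hc
  rw [← hρ c, ← hρ c']
  congr 1
  exact Subtype.ext hc

variable {S : Type} (M : CoxeterMatrix S) (S1 S2 : Set S)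

/-- the two pieces -/
def TT (b : Bool) : Set S := if b = true then S2 else S1

theorem inter_sub (b : Bool) : S1 ∩ S2 ⊆ TT S1 S2 b := by
  intro x hx
  unfold TT
  cases b
  · simpa using hx.1
  · simpa using hx.2

/-- the inclusion of the intersection -/
noncomputable def phi (b : Bool) : Gp (res M (S1 ∩ S2)) →* Gp (res M (TT S1 S2 b)) :=
  Classical.choose (incSet M (S1 ∩ S2) (TT S1 S2 b) (inter_sub S1 S2 b))

theorem phi_gen (b : Bool) (x : (S1 ∩ S2 : Set S)) :
    phi M S1 S2 b (gen (res M (S1 ∩ S2)) x) =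
      gen (res M (TT S1 S2 b)) ⟨x.1, inter_sub S1 S2 b x.2⟩ :=
  Classical.choose_spec (incSet M (S1 ∩ S2) (TT S1 S2 b) (inter_sub S1 S2 b)) x

/-- the homomorphisms to the whole group -/
noncomputable def kap (b : Bool) : Gp (res M (TT S1 S2 b)) →* Gp M :=
  Classical.choose (inc M (TT S1 S2 b))

theorem kap_gen (b : Bool) (x : TT S1 S2 b) :
    kap M S1 S2 b (gen (res M (TT S1 S2 b)) x) = gen M x.1 :=
  Classical.choose_spec (inc M (TT S1 S2 b)) x

/-- the homomorphism from the intersection -/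
noncomputable def Phi : Gp (res M (S1 ∩ S2)) →* Gp M := (kap M S1 S2 false).comp (phi M S1 S2 false)

theorem Phi_gen (x : (S1 ∩ S2 : Set S)) :
    Phi M S1 S2 (gen (res M (S1 ∩ S2)) x) = gen M x.1 := by
  unfold Phi
  rw [MonoidHom.comp_apply, phi_gen, kap_gen]

theorem kap_phi (b : Bool) : (kap M S1 S2 b).comp (phi M S1 S2 b) = Phi M S1 S2 := by
  apply ext
  intro x
  rw [Phi_gen, MonoidHom.comp_apply, phi_gen, kap_gen]

theorem rf_pushout (hP : PrinStmt) (hC : ClosedStmt) (hF : FullStmt) (hM : MidStmt)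
    (hvr : VR (Phi M S1 S2)) (hrf : ∀ b, RF (Gp (res M (TT S1 S2 b)))) :
    RF (Monoid.PushoutI (phi M S1 S2)) := by
  have hvb : ∀ b, VR (phi M S1 S2 b) := by
    intro b
    apply hM (phi M S1 S2 b) (kap M S1 S2 b)
    rw [kap_phi]
    exact hvr
  apply hP (phi M S1 S2) (fun b => vr_injective _ (hvb b)) hrf
  · intro b g hg
    exact hC (phi M S1 S2 b) (hvb b) (hrf b) g hg
  · intro L hL
    have hLf : ∀ b, (L b).FiniteIndex := fun b => (hL b).2
    have hLn : ∀ b, (L b).Normal := fun b => (hL b).1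
    have hcf : ∀ b, ((L b).comap (phi M S1 S2 b)).FiniteIndex := fun b => fi_comap _ _ (hLf b)
    have hK : ((L false).comap (phi M S1 S2 false) ⊓
        (L true).comap (phi M S1 S2 true)).FiniteIndex := inferInstance
    obtain ⟨N, hN1, hN2, hN3⟩ := hF (Phi M S1 S2) hvr _ hK
    have hcm : ∀ b, (L b ⊓ N.comap (kap M S1 S2 b)).comap (phi M S1 S2 b) =
        N.comap (Phi M S1 S2) := by
      intro b
      rw [Subgroup.comap_inf, Subgroup.comap_comap, kap_phi, inf_eq_right]
      refine le_trans hN3 ?_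
      cases b
      · exact inf_le_left
      · exact inf_le_right
    refine ⟨fun b => L b ⊓ N.comap (kap M S1 S2 b), fun b => ⟨?_, ?_, inf_le_left⟩, ?_⟩
    · infer_instance
    · have h1 : (N.comap (kap M S1 S2 b)).FiniteIndex := fi_comap _ _ hN2
      have h2 := hLf b
      exact inferInstanceAs (L b ⊓ N.comap (kap M S1 S2 b)).FiniteIndex
    · intro i j
      rw [hcm, hcm]

/-- RF of the amalgam implies RF of the group -/
theorem rf_of_pushout (hU : S1 ∪ S2 = Set.univ)
    (hinf : ∀ x ∈ S1, x ∉ S2 → ∀ y ∈ S2, y ∉ S1 → M.M x y = 0)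
    (hrf : RF (Monoid.PushoutI (phi M S1 S2))) : RF (Gp M) := by
  classical
  have hcov : ∀ s, s ∉ S1 → s ∈ TT S1 S2 true := by
    intro s hs
    have h : s ∈ S1 ∪ S2 := by rw [hU]; trivial
    rcases h with h | h
    · exact absurd h hs
    · simpa [TT] using h
  have hcov1 : ∀ s, s ∈ S1 → s ∈ TT S1 S2 false := by
    intro s hs
    simpa [TT] using hs
  let f : S → Monoid.PushoutI (phi M S1 S2) := fun s =>
    if h : s ∈ S1 then PushoutI.of false (gen (res M (TT S1 S2 false)) ⟨s, hcov1 s h⟩)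
    else PushoutI.of true (gen (res M (TT S1 S2 true)) ⟨s, hcov s h⟩)
  have hf : ∀ (b : Bool) (s : S) (hs : s ∈ TT S1 S2 b),
      f s = PushoutI.of b (gen (res M (TT S1 S2 b)) ⟨s, hs⟩) := by
    intro b s hs
    cases b
    · have h1 : s ∈ S1 := by simpa [TT] using hs
      simp only [f, dif_pos h1]
    · have h2 : s ∈ S2 := by simpa [TT] using hs
      by_cases h1 : s ∈ S1
      · simp only [f, dif_pos h1]
        have e1 := phi_gen M S1 S2 false ⟨s, h1, h2⟩
        have e2 := phi_gen M S1 S2 true ⟨s, h1, h2⟩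
        have e3 := PushoutI.of_apply_eq_base (phi M S1 S2) false
          (gen (res M (S1 ∩ S2)) ⟨s, h1, h2⟩)
        have e4 := PushoutI.of_apply_eq_base (phi M S1 S2) true
          (gen (res M (S1 ∩ S2)) ⟨s, h1, h2⟩)
        rw [e1] at e3
        rw [e2] at e4
        rw [e3, e4]
      · simp only [f, dif_neg h1]
  have hpair : ∀ s t, M.M s t ≠ 0 → ∃ b, s ∈ TT S1 S2 b ∧ t ∈ TT S1 S2 b := by
    intro s t hst
    have hs : s ∈ S1 ∪ S2 := by rw [hU]; trivial
    have ht : t ∈ S1 ∪ S2 := by rw [hU]; trivial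
    by_cases h1 : s ∈ S1 ∧ t ∈ S1
    · exact ⟨false, by simpa [TT] using h1⟩
    · by_cases h2 : s ∈ S2 ∧ t ∈ S2
      · exact ⟨true, by simpa [TT] using h2⟩
      · exfalso
        apply hst
        rcases hs with hs | hs <;> rcases ht with ht | ht
        · exact absurd ⟨hs, ht⟩ h1
        · exact hinf s hs (fun h => h2 ⟨h, ht⟩) t ht (fun h => h1 ⟨hs, h⟩)
        · rw [M.symmetric]
          exact hinf t ht (fun h => h2 ⟨hs, h⟩) s hs (fun h => h1 ⟨h, ht⟩)
        · exact absurd ⟨hs, ht⟩ h2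
  obtain ⟨Ψ, hΨ⟩ := lift M f (by
    intro s t hst
    obtain ⟨b, hs, ht⟩ := hpair s t hst
    rw [hf b s hs, hf b t ht, ← map_alt, ← map_alt]
    congr 1
    exact relHolds (res M (TT S1 S2 b)) ⟨s, hs⟩ ⟨t, ht⟩ hst)
  let Λ : Monoid.PushoutI (phi M S1 S2) →* Gp M :=
    PushoutI.lift (kap M S1 S2) (Phi M S1 S2) (kap_phi M S1 S2)
  have hΛ : Λ.comp Ψ = MonoidHom.id _ := by
    apply ext
    intro s
    rw [MonoidHom.comp_apply, hΨ, MonoidHom.id_apply]
    by_cases h : s ∈ S1
    · rw [hf false s (hcov1 s h)]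
      simp only [Λ]
      rw [PushoutI.lift_of, kap_gen]
    · rw [hf true s (hcov s h)]
      simp only [Λ]
      rw [PushoutI.lift_of, kap_gen]
  apply rf_of_injective Ψ _ hrf
  intro x y hxy
  have hx := DFunLike.congr_fun hΛ x
  have hy := DFunLike.congr_fun hΛ y
  rw [MonoidHom.comp_apply, MonoidHom.id_apply] at hx hy
  rw [← hx, ← hy, hxy]

theorem glue (hP : PrinStmt) (hC : ClosedStmt) (hF : FullStmt) (hM : MidStmt) : GlueStmt := by
  intro S M S1 S2 hU hinf hvr hr1 hr2
  apply rf_of_pushout M S1 S2 hU hinf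
  apply rf_pushout M S1 S2 hP hC hF hM (hvr _ (Phi_gen M S1 S2))
  intro b
  cases b
  · have : TT S1 S2 false = S1 := by simp [TT]
    rw [this]
    exact hr1
  · have : TT S1 S2 true = S2 := by simp [TT]
    rw [this]
    exact hr2

end Art.H50
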