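import Pool.Agent.Helper44_Art.Stmt4
import Pool.Agent.Helper44_Art.Api
import Pool.Agent.Helper51_Art.Dih

/-!
# Squad ART, wave 3: common lemmas for the base triangles (helper50)
-/

set_option autoImplicit false

namespace Art.H50

/-- Homomorphisms out of an Artin group with three generators. -/
theorem lift3 {S : Type} (M : CoxeterMatrix S) (a b c : S) (hab : a ≠ b) (hac : a ≠ c)
    (hbc : b ≠ c) (hS : ∀ x, x = a ∨ x = b ∨ x = c) {G : Type} [Group G] (A B C : G)
    (h1 : alt (M.M a b) A B = alt (M.M a b) B A) (h2 : alt (M.M b c) B C = alt (M.M b c) C B)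
    (h3 : alt (M.M a c) A C = alt (M.M a c) C A) :
    ∃ Φ : Gp M →* G, Φ (gen M a) = A ∧ Φ (gen M b) = B ∧ Φ (gen M c) = C := by
  classical
  obtain ⟨Φ, hΦ⟩ := lift M (G := G) (fun x => if x = a then A else if x = b then B else C) (by
    intro s t _
    have hs := M.diagonal s
    have ht := M.symmetric s t
    rcases hS s with rfl | rfl | rfl <;> rcases hS t with rfl | rfl | rfl <;>
      simp only [if_true, if_neg hab, if_neg hac, if_neg hbc, if_neg hab.symm, if_neg hac.symm,
        if_neg hbc.symm]
    · exact h1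
    · exact h3
    · rw [ht]; exact h1.symm
    · exact h2
    · rw [ht]; exact h3.symm
    · rw [ht]; exact h2.symm)
  refine ⟨Φ, ?_, ?_, ?_⟩
  · rw [hΦ, if_pos rfl]
  · rw [hΦ, if_neg hab.symm, if_pos rfl]
  · rw [hΦ, if_neg hac.symm, if_neg hbc.symm]

/-- An automorphism of a free group from the images of the generators. -/
def aut {α : Type} (f g : α → FreeGroup α) (h1 : ∀ i, FreeGroup.lift g (f i) = FreeGroup.of i)
    (h2 : ∀ i, FreeGroup.lift f (g i) = FreeGroup.of i) : MulAut (FreeGroup α) where
  toFun := FreeGroup.lift f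
  invFun := FreeGroup.lift g
  left_inv := by
    have h : (FreeGroup.lift g).comp (FreeGroup.lift f) = MonoidHom.id (FreeGroup α) := by
      ext i
      simp [h1]
    exact fun x => DFunLike.congr_fun h x
  right_inv := by
    have h : (FreeGroup.lift f).comp (FreeGroup.lift g) = MonoidHom.id (FreeGroup α) := by
      ext i
      simp [h2]
    exact fun x => DFunLike.congr_fun h x
  map_mul' := map_mul _

theorem aut_of {α : Type} (f g : α → FreeGroup α) (h1 : ∀ i, FreeGroup.lift g (f i) = FreeGroup.of i)
    (h2 : ∀ i, FreeGroup.lift f (g i) = FreeGroup.of i) (i : α) :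
    aut f g h1 h2 (FreeGroup.of i) = f i := by
  change FreeGroup.lift f (FreeGroup.of i) = f i
  simp

theorem mulAut_ext {α : Type} {σ τ : MulAut (FreeGroup α)}
    (h : ∀ i, σ (FreeGroup.of i) = τ (FreeGroup.of i)) : σ = τ := by
  have h1 : σ.toMonoidHom = τ.toMonoidHom := by
    ext i
    exact h i
  ext x
  exact DFunLike.congr_fun h1 x

/-- Homomorphisms out of a semidirect product of a free group. -/
theorem semiLift {α Q H : Type} [Group Q] [Group H] (φ : Q →* MulAut (FreeGroup α))
    (f1 : FreeGroup α →* H) (f2 : Q →* H) (T : Set Q) (hT : Subgroup.closure T = ⊤)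
    (h : ∀ q ∈ T, ∀ i, f1 (φ q (FreeGroup.of i)) = f2 q * f1 (FreeGroup.of i) * (f2 q)⁻¹) :
    ∃ Ξ : FreeGroup α ⋊[φ] Q →* H, (∀ k, Ξ (SemidirectProduct.inl k) = f1 k) ∧
      ∀ q, Ξ (SemidirectProduct.inr q) = f2 q := by
  have h1 : ∀ q : Q, ∀ k, f1 (φ q k) = f2 q * f1 k * (f2 q)⁻¹ := by
    intro q
    have hq : q ∈ Subgroup.closure T := by rw [hT]; trivial
    induction hq using Subgroup.closure_induction with
    | mem q hq =>
      have h2 : f1.comp (φ q).toMonoidHom = (MulAut.conj (f2 q)).toMonoidHom.comp f1 := by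
        ext i
        exact h q hq i
      exact fun k => DFunLike.congr_fun h2 k
    | one => intro k; simp
    | mul x y _ _ hx hy =>
      intro k
      rw [map_mul, MulAut.mul_apply, hx, hy, map_mul]
      group
    | inv x _ hx =>
      intro k
      have h3 := hx ((φ x)⁻¹ k)
      rw [MulAut.apply_inv_self] at h3
      rw [map_inv, map_inv, h3]
      group
  refine ⟨SemidirectProduct.lift f1 f2 fun q => ?_, fun k => ?_, fun q => ?_⟩
  · ext i
    exact h1 q _
  · exact SemidirectProduct.lift_inl _ _ _ k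
  · exact SemidirectProduct.lift_inr _ _ _ q

theorem alt3 {G : Type} [Monoid G] (a b : G) : alt 3 a b = a * b * a := by
  rw [alt_succ, alt_two, mul_assoc]

theorem alt4 {G : Type} [Monoid G] (a b : G) : alt 4 a b = a * b * a * b := by
  rw [alt_succ, alt3]
  simp only [mul_assoc]

end Art.H50
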