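import Pool.Agent.Helper50_Art.Com

/-!
# Squad ART, wave 3, module T234: type `B₃` (helper50)
-/

set_option autoImplicit false

namespace Art.H50

/-- The Coxeter matrix of the braid group on three strands. -/
def MB3 : CoxeterMatrix Bool where
  M := fun x y => if x = y then 1 else 3
  isSymm := by
    ext x y
    cases x <;> cases y <;> rfl
  diagonal x := by simp
  off_diagonal x y h := by simp [h]

theorem MB3_ft : MB3.M false true = 3 := rfl

/-- The free group of rank three. -/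
abbrev F3 : Type := FreeGroup (Fin 3)

/-- The generators. -/
abbrev X1 : F3 := FreeGroup.of 0
abbrev X2 : F3 := FreeGroup.of 1
abbrev X3 : F3 := FreeGroup.of 2

def sig1 : MulAut F3 := aut ![X2, X2⁻¹ * X1 * X2, X3] ![X1 * X2 * X1⁻¹, X1, X3]
  (by intro i; fin_cases i <;> simp [X1, X2, X3, mul_assoc])
  (by intro i; fin_cases i <;> simp [X1, X2, X3, mul_assoc])

def sig2 : MulAut F3 := aut ![X1, X3, X3⁻¹ * X2 * X3] ![X1, X2 * X3 * X2⁻¹, X2]
  (by intro i; fin_cases i <;> simp [X1, X2, X3, mul_assoc])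
  (by intro i; fin_cases i <;> simp [X1, X2, X3, mul_assoc])

theorem s11 : sig1 X1 = X2 := aut_of _ _ _ _ 0
theorem s12 : sig1 X2 = X2⁻¹ * X1 * X2 := aut_of _ _ _ _ 1
theorem s13 : sig1 X3 = X3 := aut_of _ _ _ _ 2
theorem s21 : sig2 X1 = X1 := aut_of _ _ _ _ 0
theorem s22 : sig2 X2 = X3 := aut_of _ _ _ _ 1
theorem s23 : sig2 X3 = X3⁻¹ * X2 * X3 := aut_of _ _ _ _ 2

theorem braid : sig1 * sig2 * sig1 = sig2 * sig1 * sig2 := by
  apply mulAut_ext
  intro i
  fin_cases i
  · change sig1 (sig2 (sig1 X1)) = sig2 (sig1 (sig2 X1))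
    rw [s11, s22, s13, s21, s11, s22]
  · change sig1 (sig2 (sig1 X2)) = sig2 (sig1 (sig2 X2))
    simp only [s11, s12, s22, s13, s21, s23, map_mul, map_inv]
  · change sig1 (sig2 (sig1 X3)) = sig2 (sig1 (sig2 X3))
    simp only [s12, s22, s13, s21, s23, map_mul, map_inv]
    group

/-- The action of the braid group. -/
theorem exists_phi : ∃ φ : Gp MB3 →* MulAut F3, φ (gen MB3 false) = sig1 ∧
    φ (gen MB3 true) = sig2 := by
  obtain ⟨φ, hφ⟩ := lift MB3 (fun s => if s then sig2 else sig1) (by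
    intro s t _
    cases s <;> cases t
    · rfl
    · change alt 3 sig1 sig2 = alt 3 sig2 sig1
      rw [alt3, alt3, braid]
    · change alt 3 sig2 sig1 = alt 3 sig1 sig2
      rw [alt3, alt3, braid]
    · rfl)
  exact ⟨φ, hφ false, hφ true⟩

section
variable {G : Type} [Group G] {a b c : G}

theorem w1 (h : b * c * b * c = c * b * c * b) :
    (b * c * b⁻¹)⁻¹ * c * (b * c * b⁻¹) = b * (b * c * b⁻¹) * b⁻¹ := by
  have h1 : (b * c * b⁻¹)⁻¹ * c * (b * c * b⁻¹) = b * c⁻¹ * b⁻¹ * (c * b * c * b) * b⁻¹ * b⁻¹ := by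
    group
  rw [h1, ← h]
  group

theorem w2 (h : a * b * a = b * a * b) (h3 : a * c = c * a) :
    b * (a * (b * c * b⁻¹) * a⁻¹) * b⁻¹ = a * (b * c * b⁻¹) * a⁻¹ := by
  have h1 : b * (a * (b * c * b⁻¹) * a⁻¹) * b⁻¹ = (b * a * b) * c * (b * a * b)⁻¹ := by group
  have h2 : (a * b * a) * c * (a * b * a)⁻¹ = a * b * (a * c) * a⁻¹ * b⁻¹ * a⁻¹ := by group
  rw [h1, ← h, h2, h3]
  group

theorem w3 (h : a * b * a = b * a * b) (h3 : a * c = c * a) (h4 : b * c * b * c = c * b * c * b) :
    (a * (b * c * b⁻¹) * a⁻¹)⁻¹ * (b * c * b⁻¹) * (a * (b * c * b⁻¹) * a⁻¹)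
      = a * (a * (b * c * b⁻¹) * a⁻¹) * a⁻¹ := by
  -- conjugate `w1` by `g = b * a`
  have e1 : (b * a) * c * (b * a)⁻¹ = b * c * b⁻¹ := by
    have : (b * a) * c * (b * a)⁻¹ = b * (a * c) * a⁻¹ * b⁻¹ := by group
    rw [this, h3]
    group
  have e2 : (b * a) * (b * c * b⁻¹) * (b * a)⁻¹ = a * (b * c * b⁻¹) * a⁻¹ := by
    rw [← w2 h h3]
    group
  have e3 : (b * a) * b * (b * a)⁻¹ = a := by
    have : (b * a) * b * (b * a)⁻¹ = (b * a * b) * a⁻¹ * b⁻¹ := by group
    rw [this, ← h]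
    group
  have k := w1 h4
  have k2 : ((b * a) * (b * c * b⁻¹) * (b * a)⁻¹)⁻¹ * ((b * a) * c * (b * a)⁻¹) *
      ((b * a) * (b * c * b⁻¹) * (b * a)⁻¹) =
      ((b * a) * b * (b * a)⁻¹) * ((b * a) * (b * c * b⁻¹) * (b * a)⁻¹) *
      ((b * a) * b * (b * a)⁻¹)⁻¹ := by
    have k3 : ((b * a) * (b * c * b⁻¹) * (b * a)⁻¹)⁻¹ * ((b * a) * c * (b * a)⁻¹) *
      ((b * a) * (b * c * b⁻¹) * (b * a)⁻¹) =
      (b * a) * ((b * c * b⁻¹)⁻¹ * c * (b * c * b⁻¹)) * (b * a)⁻¹ := by group
    rw [k3, k]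
    group
  rw [e1, e2, e3] at k2
  exact k2

end

open SemidirectProduct in
theorem t234 (hS : SemiStmt) (hF : FreeStmt) (hD : DihStmt) : T234Stmt := by
  intro S M a b c hab hac hbc hcov m1 m2 m3
  obtain ⟨φ, p1, p2⟩ := exists_phi
  have hQ : RF (Gp MB3) := hD MB3 false true (by simp) (by intro x; cases x <;> simp)
    (by rw [MB3_ft]; norm_num)
  have hK : RF (F3 ⋊[φ] Gp MB3) := hS φ inferInstance (hF 3) hQ
  -- relations in the braid group
  have rQ : gen MB3 true * gen MB3 false * gen MB3 true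
      = gen MB3 false * gen MB3 true * gen MB3 false := by
    have := relHolds MB3 true false (by simp [MB3])
    have e : MB3.M true false = 3 := rfl
    rwa [e, alt3, alt3] at this
  -- relations in the semidirect product
  have i1 : ∀ n : F3, (inr (gen MB3 false) : F3 ⋊[φ] Gp MB3) * inl n
      = inl (sig1 n) * inr (gen MB3 false) := by
    intro n
    rw [← p1, inl_aut]
    simp
  have i2 : ∀ n : F3, (inr (gen MB3 true) : F3 ⋊[φ] Gp MB3) * inl n
      = inl (sig2 n) * inr (gen MB3 true) := by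
    intro n
    rw [← p2, inl_aut]
    simp
  obtain ⟨Θ, t1, t2, t3⟩ := lift3 M a b c hab hac hbc hcov
    (inr (gen MB3 true) : F3 ⋊[φ] Gp MB3) (inr (gen MB3 false)) (inl X1)
    (by
      rw [m1, alt3, alt3]
      simp only [← map_mul]
      rw [rQ])
    (by
      rw [m2, alt4, alt4]
      set B : F3 ⋊[φ] Gp MB3 := inr (gen MB3 false) with hB
      calc B * inl X1 * B * inl X1 = (B * inl X1) * (B * inl X1) := by group
        _ = (inl X2 * B) * (inl X2 * B) := by rw [i1, s11]
        _ = inl X2 * (B * inl X2) * B := by group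
        _ = inl X2 * (inl (X2⁻¹ * X1 * X2) * B) * B := by rw [i1, s12]
        _ = inl (X2 * (X2⁻¹ * X1 * X2)) * B * B := by rw [map_mul _ X2]; group
        _ = inl (X1 * X2) * B * B := by congr 3; group
        _ = inl X1 * (inl X2 * B) * B := by rw [map_mul]; group
        _ = inl X1 * (B * inl X1) * B := by rw [i1, s11]
        _ = inl X1 * B * inl X1 * B := by group)
    (by rw [m3, alt_two, alt_two, i2, s21])
  -- relations in the Artin group
  have r1 : gen M a * gen M b * gen M a = gen M b * gen M a * gen M b := by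
    have := relHolds M a b (by rw [m1]; norm_num)
    rwa [m1, alt3, alt3] at this
  have r2 : gen M b * gen M c * gen M b * gen M c = gen M c * gen M b * gen M c * gen M b := by
    have := relHolds M b c (by rw [m2]; norm_num)
    rwa [m2, alt4, alt4] at this
  have r3 : gen M a * gen M c = gen M c * gen M a := by
    have := relHolds M a c (by rw [m3]; norm_num)
    rwa [m3, alt_two, alt_two] at this
  obtain ⟨f2, q⟩ := lift MB3 (fun s => if s then gen M a else gen M b) (by
    intro s t _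
    cases s <;> cases t
    · rfl
    · change alt 3 (gen M b) (gen M a) = alt 3 (gen M a) (gen M b)
      rw [alt3, alt3, r1]
    · change alt 3 (gen M a) (gen M b) = alt 3 (gen M b) (gen M a)
      rw [alt3, alt3, r1]
    · rfl)
  have q1 : f2 (gen MB3 false) = gen M b := q false
  have q2 : f2 (gen MB3 true) = gen M a := q true
  let f1 : F3 →* Gp M := FreeGroup.lift ![gen M c, gen M b * gen M c * (gen M b)⁻¹,
    gen M a * (gen M b * gen M c * (gen M b)⁻¹) * (gen M a)⁻¹]
  have g1 : f1 X1 = gen M c := by simp [f1, X1]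
  have g2 : f1 X2 = gen M b * gen M c * (gen M b)⁻¹ := by simp [f1, X2]
  have g3 : f1 X3 = gen M a * (gen M b * gen M c * (gen M b)⁻¹) * (gen M a)⁻¹ := by
    simp [f1, X3]
  obtain ⟨Ξ, x1, x2⟩ := semiLift φ f1 f2 (Set.range (gen MB3)) (closure_gen MB3) (by
    rintro _ ⟨s, rfl⟩ i
    cases s
    · rw [p1, q1]
      fin_cases i
      · change f1 (sig1 X1) = gen M b * f1 X1 * (gen M b)⁻¹
        rw [s11, g1, g2]
      · change f1 (sig1 X2) = gen M b * f1 X2 * (gen M b)⁻¹
        rw [s12, map_mul, map_mul, map_inv, g1, g2]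
        exact w1 r2
      · change f1 (sig1 X3) = gen M b * f1 X3 * (gen M b)⁻¹
        rw [s13, g3]
        exact (w2 r1 r3).symm
    · rw [p2, q2]
      fin_cases i
      · change f1 (sig2 X1) = gen M a * f1 X1 * (gen M a)⁻¹
        rw [s21, g1, r3]
        group
      · change f1 (sig2 X2) = gen M a * f1 X2 * (gen M a)⁻¹
        rw [s22, g3, g2]
      · change f1 (sig2 X3) = gen M a * f1 X3 * (gen M a)⁻¹
        rw [s23, map_mul, map_mul, map_inv, g2, g3]
        exact w3 r1 r3 r2)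
  have hinj : Function.Injective Θ := by
    have hid : Ξ.comp Θ = MonoidHom.id (Gp M) := by
      apply ext
      intro s
      rcases hcov s with rfl | rfl | rfl
      · change Ξ (Θ (gen M s)) = gen M s
        rw [t1, x2, q2]
      · change Ξ (Θ (gen M s)) = gen M s
        rw [t2, x2, q1]
      · change Ξ (Θ (gen M s)) = gen M s
        rw [t3, x1, g1]
    intro u v huv
    have := congrArg Ξ huv
    have hu : Ξ (Θ u) = u := DFunLike.congr_fun hid u
    have hv : Ξ (Θ v) = v := DFunLike.congr_fun hid v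
    rwa [hu, hv] at this
  exact Art.H51.rf_of_injective Θ hinj hK

end Art.H50
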