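import Pool.Agent.Helper50_Art.Com

/-!
# Squad ART, wave 3, module T244: the affine type `C̃₂` (helper50)
-/

set_option autoImplicit false

namespace Art.H50

namespace T2

/-- The free group of rank three on `x' = y x y⁻¹`, `z`, `w = y ^ 2`. -/
abbrev K3 : Type := FreeGroup (Fin 3)

/-- The free group of rank two on `x`, `z' = y z y⁻¹`. -/
abbrev Q2 : Type := FreeGroup (Fin 2)

abbrev kx : K3 := FreeGroup.of 0
abbrev kz : K3 := FreeGroup.of 1
abbrev kw : K3 := FreeGroup.of 2

def aX : MulAut K3 := aut ![kw⁻¹ * kx * kw, kz, kw⁻¹ * kx⁻¹ * kw * kx * kw]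
  ![kx * kw * kx * kw⁻¹ * kx⁻¹, kz, kx * kw * kx⁻¹]
  (by intro i; fin_cases i <;> simp [kx, kz, kw, mul_assoc])
  (by intro i; fin_cases i <;> simp [kx, kz, kw, mul_assoc])

def aZ : MulAut K3 := aut ![kx, kz⁻¹ * kw⁻¹ * kz * kw * kz, kz⁻¹ * kw * kz]
  ![kx, kw * kz * kw⁻¹, kw * kz * kw * kz⁻¹ * kw⁻¹]
  (by intro i; fin_cases i <;> simp [kx, kz, kw, mul_assoc])
  (by intro i; fin_cases i <;> simp [kx, kz, kw, mul_assoc])

theorem aXx : aX kx = kw⁻¹ * kx * kw := aut_of _ _ _ _ 0
theorem aXz : aX kz = kz := aut_of _ _ _ _ 1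
theorem aXw : aX kw = kw⁻¹ * kx⁻¹ * kw * kx * kw := aut_of _ _ _ _ 2
theorem aZx : aZ kx = kx := aut_of _ _ _ _ 0
theorem aZz : aZ kz = kz⁻¹ * kw⁻¹ * kz * kw * kz := aut_of _ _ _ _ 1
theorem aZw : aZ kw = kz⁻¹ * kw * kz := aut_of _ _ _ _ 2

/-- The action. -/
def phi : Q2 →* MulAut K3 := FreeGroup.lift ![aX, aZ]

theorem phi0 : phi (FreeGroup.of 0) = aX := by simp [phi]
theorem phi1 : phi (FreeGroup.of 1) = aZ := by simp [phi]

/-- The subgroup of index two, as an abstract group. -/
abbrev GG : Type := K3 ⋊[phi] Q2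

def x : GG := SemidirectProduct.inr (FreeGroup.of 0)
def z' : GG := SemidirectProduct.inr (FreeGroup.of 1)
def x' : GG := SemidirectProduct.inl kx
def z : GG := SemidirectProduct.inl kz
def w : GG := SemidirectProduct.inl kw

theorem act (q : Q2) (n : K3) : (SemidirectProduct.inr q : GG) * SemidirectProduct.inl n
    = SemidirectProduct.inl (phi q n) * SemidirectProduct.inr q := by
  rw [SemidirectProduct.inl_aut]
  simp

theorem R1 : x * x' = w⁻¹ * x' * w * x := by
  unfold x x' w
  rw [act, phi0, aXx, map_mul, map_mul, map_inv]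

theorem R2 : x * w = w⁻¹ * x'⁻¹ * w * x' * w * x := by
  unfold x x' w
  rw [act, phi0, aXw]
  simp only [map_mul, map_inv]

theorem R3 : x * z = z * x := by
  unfold x z
  rw [act, phi0, aXz]

theorem R4 : z' * x' = x' * z' := by
  unfold z' x'
  rw [act, phi1, aZx]

theorem R5 : z' * w = z⁻¹ * w * z * z' := by
  unfold z' z w
  rw [act, phi1, aZw, map_mul, map_mul, map_inv]

theorem R6 : z' * z = z⁻¹ * w⁻¹ * z * w * z * z' := by
  unfold z' z w
  rw [act, phi1, aZz]
  simp only [map_mul, map_inv]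

theorem D1 : w * x * x' = x' * w * x := by
  rw [mul_assoc, R1]
  group

theorem D2 : x * x' * w = x' * w * x := by
  rw [R1]
  have : w⁻¹ * x' * w * x * w = w⁻¹ * x' * w * (x * w) := by group
  rw [this, R2]
  group

theorem D3 : z * z' * w = w * z * z' := by
  rw [mul_assoc, R5]
  group

theorem D4 : z' * w * z = w * z * z' := by
  rw [R5]
  have : z⁻¹ * w * z * z' * z = z⁻¹ * w * z * (z' * z) := by group
  rw [this, R6]
  group

section
variable {G : Type} [Group G]

/-- A diagonal permutation. -/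
def Dp (u v : G) : Equiv.Perm (G × Bool) where
  toFun p := (cond p.2 (v * p.1) (u * p.1), p.2)
  invFun p := (cond p.2 (v⁻¹ * p.1) (u⁻¹ * p.1), p.2)
  left_inv := by rintro ⟨h, b⟩; cases b <;> simp
  right_inv := by rintro ⟨h, b⟩; cases b <;> simp

/-- The permutation which exchanges the two copies. -/
def Yp (w : G) : Equiv.Perm (G × Bool) where
  toFun p := (cond p.2 (w * p.1) p.1, !p.2)
  invFun p := (cond p.2 p.1 (w⁻¹ * p.1), !p.2)
  left_inv := by rintro ⟨h, b⟩; cases b <;> simp
  right_inv := by rintro ⟨h, b⟩; cases b <;> simp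

theorem Dp_f (u v h : G) : Dp u v (h, false) = (u * h, false) := rfl
theorem Dp_t (u v h : G) : Dp u v (h, true) = (v * h, true) := rfl
theorem Yp_f (w h : G) : Yp w (h, false) = (h, true) := rfl
theorem Yp_t (w h : G) : Yp w (h, true) = (w * h, false) := rfl
theorem Ypi_f (w h : G) : (Yp w)⁻¹ (h, false) = (w⁻¹ * h, true) := rfl

theorem rel4 (u v w : G) (h1 : u * w * v = w * v * u) (h2 : v * u * w = u * w * v) :
    Dp u v * Yp w * Dp u v * Yp w = Yp w * Dp u v * Yp w * Dp u v := by
  ext1 ⟨h, b⟩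
  cases b
  · simp only [Equiv.Perm.mul_apply, Dp_f, Dp_t, Yp_f, Yp_t]
    congr 1
    have e1 : u * (w * (v * h)) = (u * w * v) * h := by group
    have e2 : w * (v * (u * h)) = (w * v * u) * h := by group
    rw [e1, e2, h1]
  · simp only [Equiv.Perm.mul_apply, Dp_f, Dp_t, Yp_f, Yp_t]
    congr 1
    have e1 : v * (u * (w * h)) = (v * u * w) * h := by group
    have e2 : u * (w * (v * h)) = (u * w * v) * h := by group
    rw [e1, e2, h2]

theorem rel2 (u v u' v' : G) (h1 : u * u' = u' * u) (h2 : v * v' = v' * v) :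
    Dp u v * Dp u' v' = Dp u' v' * Dp u v := by
  ext1 ⟨h, b⟩
  cases b
  · simp only [Equiv.Perm.mul_apply, Dp_f]
    rw [← mul_assoc, h1, mul_assoc]
  · simp only [Equiv.Perm.mul_apply, Dp_t]
    rw [← mul_assoc, h2, mul_assoc]

/-- Consequences of the braid relation of length four. -/
theorem c1 {x y : G} (h : x * y * x * y = y * x * y * x) :
    (y ^ 2)⁻¹ * (y * x * y⁻¹) * y ^ 2 = x * (y * x * y⁻¹) * x⁻¹ := by
  have h1 : (y ^ 2)⁻¹ * (y * x * y⁻¹) * y ^ 2 = y⁻¹ * (x * y * x * y) * y⁻¹ * x⁻¹ := by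
    simp [pow_two, mul_assoc]
  rw [h1, h]
  simp [mul_assoc]

theorem c2 {x y : G} (h : x * y * x * y = y * x * y * x) :
    (y ^ 2)⁻¹ * (y * x * y⁻¹)⁻¹ * y ^ 2 * (y * x * y⁻¹) * y ^ 2 = x * y ^ 2 * x⁻¹ := by
  have h1 : (y ^ 2)⁻¹ * (y * x * y⁻¹)⁻¹ * y ^ 2 * (y * x * y⁻¹) * y ^ 2
      = y⁻¹ * x⁻¹ * y * (y * x * y * x) * x⁻¹ := by simp [pow_two, mul_assoc]
  have h2 : y⁻¹ * x⁻¹ * y * (x * y * x * y) * x⁻¹
      = y⁻¹ * x⁻¹ * (y * x * y * x) * y * x⁻¹ := by simp [mul_assoc]
  rw [h1, ← h, h2, ← h]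
  simp [pow_two, mul_assoc]

theorem c3 {y z : G} (h : y * z * y * z = z * y * z * y) :
    z⁻¹ * y ^ 2 * z = (y * z * y⁻¹) * y ^ 2 * (y * z * y⁻¹)⁻¹ := by
  have h1 : (y * z * y⁻¹) * y ^ 2 * (y * z * y⁻¹)⁻¹ = z⁻¹ * (z * y * z * y) * y * z⁻¹ * y⁻¹ := by
    simp [pow_two, mul_assoc]
  have h2 : z⁻¹ * (y * z * y * z) * y * z⁻¹ * y⁻¹ = z⁻¹ * y * (z * y * z * y) * z⁻¹ * y⁻¹ := by
    simp [mul_assoc]
  rw [h1, ← h, h2, ← h]
  simp [pow_two, mul_assoc]

theorem c4 {y z : G} (h : y * z * y * z = z * y * z * y) :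
    z⁻¹ * (y ^ 2)⁻¹ * z * y ^ 2 * z = (y * z * y⁻¹) * z * (y * z * y⁻¹)⁻¹ := by
  have e : (y ^ 2 * z) * (y * z * y⁻¹) = y * z * y * z := by
    have e1 : (y ^ 2 * z) * (y * z * y⁻¹) = y * (y * z * y * z) * y⁻¹ := by
      simp [pow_two, mul_assoc]
    have e2 : y * (z * y * z * y) * y⁻¹ = y * z * y * z := by simp [mul_assoc]
    rw [e1, h, e2, h]
  have hc : (y * z * y * z) * z = z * (y * z * y * z) := by
    have : z * (y * z * y * z) = (z * y * z * y) * z := by simp [mul_assoc]
    rw [this, h]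
  have h3 : (y * z * y⁻¹) = (y ^ 2 * z)⁻¹ * (y * z * y * z) := by
    rw [← e]
    group
  have h4 : (y * z * y⁻¹) * z * (y * z * y⁻¹)⁻¹
      = (y ^ 2 * z)⁻¹ * ((y * z * y * z) * z) * (y * z * y * z)⁻¹ * (y ^ 2 * z) := by
    rw [h3]
    group
  rw [h4, hc]
  group

end

end T2

open T2 in
theorem t244 (hS : SemiStmt) (hF : FreeStmt) (hI : FinoStmt) : T244Stmt := by
  intro S M a b c hab hac hbc hcov m1 m2 m3
  have hG : RF GG := hS phi inferInstance (hF 3) (hF 2)
  -- relations in the Artin group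
  have r1 : gen M a * gen M b * gen M a * gen M b = gen M b * gen M a * gen M b * gen M a := by
    have := relHolds M a b (by rw [m1]; norm_num)
    rwa [m1, alt4, alt4] at this
  have r2 : gen M b * gen M c * gen M b * gen M c = gen M c * gen M b * gen M c * gen M b := by
    have := relHolds M b c (by rw [m2]; norm_num)
    rwa [m2, alt4, alt4] at this
  have r3 : gen M a * gen M c = gen M c * gen M a := by
    have := relHolds M a c (by rw [m3]; norm_num)
    rwa [m3, alt_two, alt_two] at this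
  -- the homomorphism to the permutations
  obtain ⟨Θ, t1, t2, t3⟩ := lift3 M a b c hab hac hbc hcov
    (Dp x (w⁻¹ * x' * w)) (Yp w) (Dp z (w⁻¹ * z' * w))
    (by
      rw [m1, alt4, alt4]
      apply rel4
      · have := D2
        have e1 : x * w * (w⁻¹ * x' * w) = x * x' * w := by group
        have e2 : w * (w⁻¹ * x' * w) * x = x' * w * x := by group
        rw [e1, e2, D2]
      · have e1 : w⁻¹ * x' * w * x * w = w⁻¹ * (x' * w * x) * w := by group
        have e2 : x * w * (w⁻¹ * x' * w) = x * x' * w := by group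
        rw [e1, e2, ← D1]
        group)
    (by
      rw [m2, alt4, alt4]
      refine (rel4 _ _ _ ?_ ?_).symm
      · have e1 : z * w * (w⁻¹ * z' * w) = z * z' * w := by group
        have e2 : w * (w⁻¹ * z' * w) * z = z' * w * z := by group
        rw [e1, e2, D3, D4]
      · have e1 : w⁻¹ * z' * w * z * w = w⁻¹ * (z' * w * z) * w := by group
        have e2 : z * w * (w⁻¹ * z' * w) = z * z' * w := by group
        rw [e1, e2, D4]
        group)
    (by
      rw [m3, alt_two, alt_two]
      apply rel2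
      · exact R3
      · have e1 : w⁻¹ * x' * w * (w⁻¹ * z' * w) = w⁻¹ * (x' * z') * w := by group
        have e2 : w⁻¹ * z' * w * (w⁻¹ * x' * w) = w⁻¹ * (z' * x') * w := by group
        rw [e1, e2, R4])
  -- the homomorphism from the semidirect product
  let f1 : K3 →* Gp M := FreeGroup.lift ![gen M b * gen M a * (gen M b)⁻¹, gen M c, gen M b ^ 2]
  let f2 : Q2 →* Gp M := FreeGroup.lift ![gen M a, gen M b * gen M c * (gen M b)⁻¹]
  have g1 : f1 kx = gen M b * gen M a * (gen M b)⁻¹ := by simp [f1, kx]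
  have g2 : f1 kz = gen M c := by simp [f1, kz]
  have g3 : f1 kw = gen M b ^ 2 := by simp [f1, kw]
  have q1 : f2 (FreeGroup.of 0) = gen M a := by simp [f2]
  have q2 : f2 (FreeGroup.of 1) = gen M b * gen M c * (gen M b)⁻¹ := by simp [f2]
  obtain ⟨j, j1, j2⟩ := semiLift phi f1 f2 (Set.range FreeGroup.of)
    (FreeGroup.closure_range_of _) (by
    rintro _ ⟨s, rfl⟩ i
    fin_cases s
    · change f1 (phi (FreeGroup.of 0) _) = f2 (FreeGroup.of 0) * _ * (f2 (FreeGroup.of 0))⁻¹
      rw [phi0, q1]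
      fin_cases i
      · change f1 (aX kx) = gen M a * f1 kx * (gen M a)⁻¹
        rw [aXx, map_mul, map_mul, map_inv, g1, g3]
        exact c1 r1
      · change f1 (aX kz) = gen M a * f1 kz * (gen M a)⁻¹
        rw [aXz, g2, r3]
        group
      · change f1 (aX kw) = gen M a * f1 kw * (gen M a)⁻¹
        rw [aXw]
        simp only [map_mul, map_inv]
        rw [g1, g3]
        exact c2 r1
    · change f1 (phi (FreeGroup.of 1) _) = f2 (FreeGroup.of 1) * _ * (f2 (FreeGroup.of 1))⁻¹
      rw [phi1, q2]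
      fin_cases i
      · change f1 (aZ kx) = _ * f1 kx * _
        rw [aZx, g1]
        have e1 : gen M b * gen M c * (gen M b)⁻¹ * (gen M b * gen M a * (gen M b)⁻¹) *
          (gen M b * gen M c * (gen M b)⁻¹)⁻¹ = gen M b * (gen M c * gen M a) * (gen M c)⁻¹ *
          (gen M b)⁻¹ := by group
        rw [e1, ← r3]
        group
      · change f1 (aZ kz) = _ * f1 kz * _
        rw [aZz]
        simp only [map_mul, map_inv]
        rw [g2, g3]
        exact c4 r2
      · change f1 (aZ kw) = _ * f1 kw * _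
        rw [aZw, map_mul, map_mul, map_inv, g2, g3]
        exact c3 r2)
  have jx : j x = gen M a := by unfold x; rw [j2, q1]
  have jz' : j z' = gen M b * gen M c * (gen M b)⁻¹ := by unfold z'; rw [j2, q2]
  have jx' : j x' = gen M b * gen M a * (gen M b)⁻¹ := by unfold x'; rw [j1, g1]
  have jz : j z = gen M c := by unfold z; rw [j1, g2]
  have jw : j w = gen M b ^ 2 := by unfold w; rw [j1, g3]
  -- the first coordinate
  let P : Subgroup GG :=
    { carrier := {g | ∀ h, Θ (j g) (h, false) = (g * h, false)}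
      mul_mem' := by
        intro g g' hg hg' h
        rw [map_mul, map_mul, Equiv.Perm.mul_apply, hg', hg, mul_assoc]
      one_mem' := by
        intro h
        simp
      inv_mem' := by
        intro g hg h
        have h1 := hg (g⁻¹ * h)
        rw [mul_inv_cancel_left] at h1
        rw [map_inv, map_inv, Equiv.Perm.inv_eq_iff_eq]
        exact h1.symm }
  have Px : x ∈ P := by
    intro h
    rw [jx, t1, Dp_f]
  have Pz : z ∈ P := by
    intro h
    rw [jz, t3, Dp_f]
  have Px' : x' ∈ P := by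
    intro h
    rw [jx', map_mul, map_mul, map_inv, t1, t2]
    simp only [Equiv.Perm.mul_apply, Ypi_f, Dp_t, Yp_t]
    congr 1
    group
  have Pz' : z' ∈ P := by
    intro h
    rw [jz', map_mul, map_mul, map_inv, t3, t2]
    simp only [Equiv.Perm.mul_apply, Ypi_f, Dp_t, Yp_t]
    congr 1
    group
  have Pw : w ∈ P := by
    intro h
    rw [jw, map_pow, t2, pow_two, Equiv.Perm.mul_apply, Yp_f, Yp_t]
  have hP : ∀ g, g ∈ P := by
    intro g
    have e1 : (P.comap (SemidirectProduct.inl : K3 →* GG)) = ⊤ := by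
      rw [eq_top_iff, ← FreeGroup.closure_range_of, Subgroup.closure_le]
      rintro _ ⟨i, rfl⟩
      fin_cases i
      · exact Px'
      · exact Pz
      · exact Pw
    have e2 : (P.comap (SemidirectProduct.inr : Q2 →* GG)) = ⊤ := by
      rw [eq_top_iff, ← FreeGroup.closure_range_of, Subgroup.closure_le]
      rintro _ ⟨i, rfl⟩
      fin_cases i
      · exact Px
      · exact Pz'
    rw [← SemidirectProduct.inl_left_mul_inr_right g]
    apply P.mul_mem
    · have : g.left ∈ (P.comap (SemidirectProduct.inl : K3 →* GG)) := by rw [e1]; trivial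
      exact this
    · have : g.right ∈ (P.comap (SemidirectProduct.inr : Q2 →* GG)) := by rw [e2]; trivial
      exact this
  have hinj : Function.Injective j := by
    rw [injective_iff_map_eq_one]
    intro g hg
    have h1 := hP g 1
    rw [hg, map_one, mul_one] at h1
    exact (congrArg Prod.fst h1).symm
  -- the range has index at most two
  have hcl : ∀ v : Gp M, v ∈ j.range ∨ v * (gen M b)⁻¹ ∈ j.range := by
    have mx : gen M a ∈ j.range := ⟨x, jx⟩
    have mz : gen M c ∈ j.range := ⟨z, jz⟩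
    have mx' : gen M b * gen M a * (gen M b)⁻¹ ∈ j.range := ⟨x', jx'⟩
    have mz' : gen M b * gen M c * (gen M b)⁻¹ ∈ j.range := ⟨z', jz'⟩
    have mw : gen M b ^ 2 ∈ j.range := ⟨w, jw⟩
    -- closed under right multiplication by the elements `t` with `t ∈ R`, `b t b⁻¹ ∈ R`
    have step : ∀ t : Gp M, t ∈ j.range → gen M b * t * (gen M b)⁻¹ ∈ j.range → ∀ v : Gp M,
        (v ∈ j.range ∨ v * (gen M b)⁻¹ ∈ j.range) →
        (v * t ∈ j.range ∨ v * t * (gen M b)⁻¹ ∈ j.range) := by
      intro t ht ht' v hv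
      rcases hv with hv | hv
      · exact Or.inl (mul_mem hv ht)
      · right
        have := mul_mem hv ht'
        have e : v * (gen M b)⁻¹ * (gen M b * t * (gen M b)⁻¹) = v * t * (gen M b)⁻¹ := by group
        rwa [e] at this
    have stepb : ∀ v : Gp M, (v ∈ j.range ∨ v * (gen M b)⁻¹ ∈ j.range) →
        (v * gen M b ∈ j.range ∨ v * gen M b * (gen M b)⁻¹ ∈ j.range) := by
      intro v hv
      rcases hv with hv | hv
      · right
        simpa using hv
      · left
        have := mul_mem hv mw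
        have e : v * (gen M b)⁻¹ * gen M b ^ 2 = v * gen M b := by group
        rwa [e] at this
    have stepb' : ∀ v : Gp M, (v ∈ j.range ∨ v * (gen M b)⁻¹ ∈ j.range) →
        (v * (gen M b)⁻¹ ∈ j.range ∨ v * (gen M b)⁻¹ * (gen M b)⁻¹ ∈ j.range) := by
      intro v hv
      rcases hv with hv | hv
      · right
        have := mul_mem hv (inv_mem mw)
        have e : v * (gen M b ^ 2)⁻¹ = v * (gen M b)⁻¹ * (gen M b)⁻¹ := by group
        rwa [e] at this
      · exact Or.inl hv
    intro v
    have hv : v ∈ Subgroup.closure (Set.range (gen M)) := by rw [closure_gen]; trivial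
    induction hv using Subgroup.closure_induction_right with
    | one => exact Or.inl (one_mem _)
    | mul_right u _ t ht hu =>
      obtain ⟨s, rfl⟩ := ht
      rcases hcov s with rfl | rfl | rfl
      · exact step _ mx mx' u hu
      · exact stepb u hu
      · exact step _ mz mz' u hu
    | mul_inv_cancel u _ t ht hu =>
      obtain ⟨s, rfl⟩ := ht
      have inv' : ∀ t : Gp M, gen M b * t * (gen M b)⁻¹ ∈ j.range →
          gen M b * t⁻¹ * (gen M b)⁻¹ ∈ j.range := by
        intro t ht
        have := inv_mem ht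
        have e : (gen M b * t * (gen M b)⁻¹)⁻¹ = gen M b * t⁻¹ * (gen M b)⁻¹ := by group
        rwa [e] at this
      rcases hcov s with rfl | rfl | rfl
      · exact step _ (inv_mem mx) (inv' _ mx') u hu
      · exact stepb' u hu
      · exact step _ (inv_mem mz) (inv' _ mz') u hu
  have hfin : (j.range).FiniteIndex := by
    have hsurj : ∀ q : Gp M ⧸ j.range, q = ((1 : Gp M) : Gp M ⧸ j.range) ∨
        q = (((gen M b)⁻¹ : Gp M) : Gp M ⧸ j.range) := by
      intro q
      obtain ⟨v, rfl⟩ := QuotientGroup.mk_surjective q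
      rcases hcl v⁻¹ with h | h
      · left
        rw [QuotientGroup.eq]
        simpa using h
      · right
        rw [QuotientGroup.eq]
        exact h
    have : Finite (Gp M ⧸ j.range) := by
      apply Set.finite_univ_iff.mp
      refine (Set.toFinite {((1 : Gp M) : Gp M ⧸ j.range),
        (((gen M b)⁻¹ : Gp M) : Gp M ⧸ j.range)}).subset fun q _ => ?_
      rcases hsurj q with h | h
      · exact Or.inl h
      · exact Or.inr h
    exact Subgroup.finiteIndex_of_finite_quotient
  exact hI j hinj hfin hG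

end Art.H50
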